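import Mathlib
import Pool.Agent.TH407.AR.Defs
import Pool.Agent.TH277.CP.P
set_option autoImplicit false

/-! Job 930 (VR-E): restriction to a half plane. -/

namespace Pool.Agent.TH817.VR

open MeasureTheory Set Complex Filter Topology
open scoped ENNReal NNReal Real
open Pool.Agent.TH407.AR

/-- the character -/
noncomputable def ch (X x : ℝ × ℝ) : ℂ := cexp (-(I * ((x.1 * X.1 + x.2 * X.2 : ℝ) : ℂ)))

lemma ch_norm (X x : ℝ × ℝ) : ‖ch X x‖ = 1 := by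
  unfold ch
  rw [Complex.norm_exp]
  simp

lemma ch_add (X x y : ℝ × ℝ) : ch X (x + y) = ch X x * ch X y := by
  unfold ch
  rw [← Complex.exp_add]
  congr 1
  simp only [Prod.fst_add, Prod.snd_add]
  push_cast
  ring

lemma ch_cont (X : ℝ × ℝ) : Continuous (ch X) := by
  unfold ch
  fun_prop

lemma ch_int (X : ℝ × ℝ) {F : ℝ × ℝ → ℂ} (hF : Integrable F) : Integrable fun x => ch X x * F x := by
  refine hF.bdd_mul (c := 1) (ch_cont X).aestronglyMeasurable ?_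
  exact ae_of_all _ fun x => (ch_norm X x).le

lemma FT_eq (F : ℝ × ℝ → ℂ) (X : ℝ × ℝ) : FT F X = ∫ x, ch X x * F x := rfl

/-- the self convolution -/
noncomputable def cv (F : ℝ × ℝ → ℂ) : ℝ × ℝ → ℂ :=
  MeasureTheory.convolution F F (ContinuousLinearMap.mul ℂ ℂ) volume

lemma cv_eq (F : ℝ × ℝ → ℂ) (x : ℝ × ℝ) : cv F x = ∫ t, F t * F (x - t) := rfl

lemma cv_int {F : ℝ × ℝ → ℂ} (hF : Integrable F) : Integrable (cv F) :=
  hF.integrable_convolution _ hF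

lemma cv_bd {F : ℝ × ℝ → ℂ} (hF : Integrable F) {B : ℝ} (hB : ∀ x, ‖F x‖ ≤ B) (x : ℝ × ℝ) :
    ‖cv F x‖ ≤ (∫ t, ‖F t‖) * B := by
  rw [cv_eq, ← integral_mul_const]
  refine norm_integral_le_of_norm_le (hF.norm.mul_const B) (ae_of_all _ fun t => ?_)
  rw [norm_mul]
  exact mul_le_mul_of_nonneg_left (hB _) (norm_nonneg _)

lemma memLp_two_of_bd {f : ℝ × ℝ → ℂ} (hf : Integrable f) {M : ℝ} (hM : ∀ x, ‖f x‖ ≤ M) :
    MemLp f 2 := by
  rw [memLp_two_iff_integrable_sq_norm hf.1]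
  refine Integrable.mono' (hf.norm.const_mul M) ?_ (ae_of_all _ fun x => ?_)
  · exact (hf.1.norm.pow 2)
  · rw [Real.norm_eq_abs, abs_of_nonneg (by positivity), pow_two]
    exact mul_le_mul_of_nonneg_right (hM x) (norm_nonneg _)

lemma FT_cv {F : ℝ × ℝ → ℂ} (hF : Integrable F) (X : ℝ × ℝ) : FT (cv F) X = FT F X ^ 2 := by
  have h := integral_convolution (L := ContinuousLinearMap.mul ℂ ℂ) (μ := volume) (ν := volume)
    (ch_int X hF) (ch_int X hF)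
  rw [FT_eq, FT_eq, pow_two]
  have h2 : ∀ x, ch X x * cv F x = MeasureTheory.convolution (fun x => ch X x * F x)
      (fun x => ch X x * F x) (ContinuousLinearMap.mul ℂ ℂ) volume x := by
    intro x
    show ch X x * ∫ t, F t * F (x - t) = ∫ t, (ch X t * F t) * (ch X (x - t) * F (x - t))
    rw [← integral_const_mul]
    congr 1
    ext t
    have h3 : ch X x = ch X t * ch X (x - t) := by
      rw [← ch_add]; congr 1; abel
    rw [h3]; ring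
  simp_rw [h2]
  exact h

lemma FT_sub {a b : ℝ × ℝ → ℂ} (ha : Integrable a) (hb : Integrable b) (X : ℝ × ℝ) :
    FT (fun x => a x - b x) X = FT a X - FT b X := by
  rw [FT_eq, FT_eq, FT_eq, ← integral_sub (ch_int X ha) (ch_int X hb)]
  congr 1
  ext x
  ring

lemma FT_cont {F : ℝ × ℝ → ℂ} (hF : Integrable F) : Continuous (FT F) := by
  unfold FT
  refine continuous_of_dominated (bound := fun x => ‖F x‖) ?_ ?_ hF.norm ?_
  · intro X
    exact (ch_int X hF).1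
  · intro X
    refine ae_of_all _ fun x => ?_
    have := ch_norm X x
    unfold ch at this
    rw [norm_mul, this, one_mul]
  · refine ae_of_all _ fun x => ?_
    fun_prop

lemma plan {a : ℝ × ℝ → ℂ} (ha : Integrable a) (ha2 : MemLp a 2) :
    ∫⁻ X, ‖FT a X‖ₑ ^ 2 = ENNReal.ofReal ((2 * π) ^ 2) * ∫⁻ x, ‖a x‖ₑ ^ 2 :=
  Pool.Agent.TH277.CP.plancherel2 a ha ha2

lemma cv_supp_pos {F : ℝ × ℝ → ℂ} (h : ∀ x : ℝ × ℝ, x.2 ≤ 0 → F x = 0) {x : ℝ × ℝ}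
    (hx : x.2 ≤ 0) : cv F x = 0 := by
  rw [cv_eq]
  have : ∀ t : ℝ × ℝ, F t * F (x - t) = 0 := by
    intro t
    rcases le_or_gt t.2 0 with h1 | h1
    · rw [h t h1, zero_mul]
    · rw [h (x - t) (by simp only [Prod.snd_sub]; linarith), mul_zero]
  simp [this]

lemma cv_supp_neg {F : ℝ × ℝ → ℂ} (h : ∀ x : ℝ × ℝ, 0 ≤ x.2 → F x = 0) {x : ℝ × ℝ}
    (hx : 0 ≤ x.2) : cv F x = 0 := by
  rw [cv_eq]
  have : ∀ t : ℝ × ℝ, F t * F (x - t) = 0 := by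
    intro t
    rcases le_or_gt 0 t.2 with h1 | h1
    · rw [h t h1, zero_mul]
    · rw [h (x - t) (by simp only [Prod.snd_sub]; linarith), mul_zero]
  simp [this]

lemma pt_ineq (p q : ℂ) :
    ‖p ^ 2 - q ^ 2‖ ^ 2 ≤ 4 * ‖p + q‖ ^ 4 + (1 / 2) * (‖p‖ ^ 4 + ‖q‖ ^ 4) := by
  have h1 : ‖p ^ 2 - q ^ 2‖ = ‖p + q‖ * ‖p - q‖ := by
    rw [← norm_mul]; congr 1; ring
  have h2 : ‖p - q‖ ≤ ‖p‖ + ‖q‖ := norm_sub_le p q
  have h3 : ‖p - q‖ ^ 4 ≤ 8 * (‖p‖ ^ 4 + ‖q‖ ^ 4) := by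
    have h4 : ‖p - q‖ ^ 4 ≤ (‖p‖ + ‖q‖) ^ 4 := pow_le_pow_left₀ (norm_nonneg _) h2 4
    have h5 : (‖p‖ + ‖q‖) ^ 2 ≤ 2 * (‖p‖ ^ 2 + ‖q‖ ^ 2) := by nlinarith [sq_nonneg (‖p‖ - ‖q‖)]
    have h6 : (‖p‖ + ‖q‖) ^ 4 ≤ (2 * (‖p‖ ^ 2 + ‖q‖ ^ 2)) ^ 2 := by
      have : (‖p‖ + ‖q‖) ^ 4 = ((‖p‖ + ‖q‖) ^ 2) ^ 2 := by ring
      rw [this]
      exact pow_le_pow_left₀ (by positivity) h5 2
    nlinarith [sq_nonneg (‖p‖ ^ 2 - ‖q‖ ^ 2)]
  rw [h1, mul_pow]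
  nlinarith [sq_nonneg (2 * ‖p + q‖ ^ 2 - ‖p - q‖ ^ 2 / 4)]

lemma en_pow (z : ℂ) (n : ℕ) : ‖z‖ₑ ^ n = ENNReal.ofReal (‖z‖ ^ n) := by
  rw [ENNReal.ofReal_pow (norm_nonneg _), ofReal_norm]

theorem half_plane : HalfPlane := by
  rintro F G hF hG ⟨B, hB⟩ ⟨B', hB'⟩ hFs hGs
  set a := cv F with ha
  set b := cv G with hb
  have ia : Integrable a := cv_int hF
  have ib : Integrable b := cv_int hG
  have bda : ∀ x, ‖a x‖ ≤ (∫ t, ‖F t‖) * B := cv_bd hF hB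
  have bdb : ∀ x, ‖b x‖ ≤ (∫ t, ‖G t‖) * B' := cv_bd hG hB'
  have la : MemLp a 2 := memLp_two_of_bd ia bda
  have lb : MemLp b 2 := memLp_two_of_bd ib bdb
  have iab : Integrable fun x => a x - b x := ia.sub ib
  have lab : MemLp (fun x => a x - b x) 2 := la.sub lb
  have hab : ∀ x, a x = 0 ∨ b x = 0 := by
    intro x
    rcases le_total x.2 0 with h | h
    · exact Or.inl (cv_supp_pos hFs h)
    · exact Or.inr (cv_supp_neg hGs h)
  set P := FT F with hP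
  set Q := FT G with hQ
  have cP : Continuous P := FT_cont hF
  have cQ : Continuous Q := FT_cont hG
  have pa := plan ia la
  have pb := plan ib lb
  have pab := plan iab lab
  have ea : ∀ X, FT a X = P X ^ 2 := fun X => FT_cv hF X
  have eb : ∀ X, FT b X = Q X ^ 2 := fun X => FT_cv hG X
  have eab : ∀ X, FT (fun x => a x - b x) X = P X ^ 2 - Q X ^ 2 := fun X => by
    rw [FT_sub ia ib, ea, eb]
  simp_rw [ea] at pa
  simp_rw [eb] at pb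
  simp_rw [eab] at pab
  have e4 : ∀ z : ℂ, ‖z ^ 2‖ₑ ^ 2 = ‖z‖ₑ ^ 4 := by
    intro z
    rw [enorm_pow, ← pow_mul]
  simp_rw [e4] at pa pb
  have hsplit : ∫⁻ x, ‖a x - b x‖ₑ ^ 2 = (∫⁻ x, ‖a x‖ₑ ^ 2) + ∫⁻ x, ‖b x‖ₑ ^ 2 := by
    rw [← lintegral_add_left' (ia.1.enorm.pow_const 2)]
    apply lintegral_congr
    intro x
    rcases hab x with h | h
    · rw [h]; simp
    · rw [h]; simp
  have hfa : ∫⁻ x, ‖a x‖ₑ ^ 2 ≠ ∞ := by
    have := la.eLpNorm_lt_top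
    rw [eLpNorm_lt_top_iff_lintegral_rpow_enorm_lt_top (by norm_num) (by norm_num)] at this
    simpa using this.ne
  have hfb : ∫⁻ x, ‖b x‖ₑ ^ 2 ≠ ∞ := by
    have := lb.eLpNorm_lt_top
    rw [eLpNorm_lt_top_iff_lintegral_rpow_enorm_lt_top (by norm_num) (by norm_num)] at this
    simpa using this.ne
  set SF := ∫⁻ X, ‖P X‖ₑ ^ 4 with hSF
  set SG := ∫⁻ X, ‖Q X‖ₑ ^ 4 with hSG
  have fF : SF ≠ ∞ := by
    rw [pa]; exact ENNReal.mul_ne_top ENNReal.ofReal_ne_top hfa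
  have fG : SG ≠ ∞ := by
    rw [pb]; exact ENNReal.mul_ne_top ENNReal.ofReal_ne_top hfb
  have hS : SF + SG = ∫⁻ X, ‖P X ^ 2 - Q X ^ 2‖ₑ ^ 2 := by
    rw [pa, pb, pab, hsplit, mul_add]
  have mP : Measurable fun X => ‖P X‖ₑ ^ 4 := (cP.measurable.enorm).pow_const 4
  have mQ : Measurable fun X => ‖Q X‖ₑ ^ 4 := (cQ.measurable.enorm).pow_const 4
  have mPQ : Measurable fun X => ‖P X + Q X‖ₑ ^ 4 := ((cP.add cQ).measurable.enorm).pow_const 4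
  have hle : SF + SG ≤ 4 * (∫⁻ X, ‖P X + Q X‖ₑ ^ 4) + 2⁻¹ * (SF + SG) := by
    calc SF + SG = ∫⁻ X, ‖P X ^ 2 - Q X ^ 2‖ₑ ^ 2 := hS
      _ ≤ ∫⁻ X, (4 * ‖P X + Q X‖ₑ ^ 4 + 2⁻¹ * (‖P X‖ₑ ^ 4 + ‖Q X‖ₑ ^ 4)) := by
          apply lintegral_mono
          intro X
          have h1 := pt_ineq (P X) (Q X)
          have h2 := ENNReal.ofReal_le_ofReal h1
          rw [← en_pow] at h2
          refine h2.trans (le_of_eq ?_)
          rw [ENNReal.ofReal_add (by positivity) (by positivity), ENNReal.ofReal_mul (by norm_num),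
            ENNReal.ofReal_mul (by norm_num), ENNReal.ofReal_add (by positivity) (by positivity),
            ← en_pow, ← en_pow, ← en_pow]
          have e1 : ENNReal.ofReal 4 = 4 := by norm_num
          have e2 : ENNReal.ofReal (1 / 2) = 2⁻¹ := by
            rw [one_div, ENNReal.ofReal_inv_of_pos (by norm_num)]
            norm_num
          rw [e1, e2]
      _ = 4 * (∫⁻ X, ‖P X + Q X‖ₑ ^ 4) + 2⁻¹ * (SF + SG) := by
          have mS : Measurable fun X => ‖P X‖ₑ ^ 4 + ‖Q X‖ₑ ^ 4 := mP.add mQ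
          rw [lintegral_add_left (mPQ.const_mul 4), lintegral_const_mul _ mPQ,
            lintegral_const_mul _ mS, lintegral_add_left mP]
  have hfin : 2⁻¹ * (SF + SG) ≠ ∞ := ENNReal.mul_ne_top (by norm_num) (ENNReal.add_ne_top.2 ⟨fF, fG⟩)
  have h2 : SF + SG = 2⁻¹ * (SF + SG) + 2⁻¹ * (SF + SG) := by
    rw [← add_mul, ENNReal.inv_two_add_inv_two, one_mul]
  have h3 : 2⁻¹ * (SF + SG) ≤ 4 * (∫⁻ X, ‖P X + Q X‖ₑ ^ 4) := by
    have h4 : 2⁻¹ * (SF + SG) + 2⁻¹ * (SF + SG) ≤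
        4 * (∫⁻ X, ‖P X + Q X‖ₑ ^ 4) + 2⁻¹ * (SF + SG) := by rw [← h2]; exact hle
    exact (ENNReal.add_le_add_iff_right hfin).1 h4
  calc SF ≤ SF + SG := le_self_add
    _ = 2 * (2⁻¹ * (SF + SG)) := by
        rw [← mul_assoc, ENNReal.mul_inv_cancel (by norm_num) (by norm_num), one_mul]
    _ ≤ 2 * (4 * (∫⁻ X, ‖P X + Q X‖ₑ ^ 4)) := by gcongr
    _ = 8 * ∫⁻ X, ‖P X + Q X‖ₑ ^ 4 := by
        rw [← mul_assoc]; norm_num

end Pool.Agent.TH817.VR
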