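import Mathlib
import Pool.Agent.TH407.AR.Defs
set_option autoImplicit false

/-! Job 927 (VR-B): the Poisson kernel. -/

namespace Pool.Agent.TH817.VR

open MeasureTheory Set Complex Filter Topology
open scoped ENNReal NNReal Real FourierTransform
open Pool.Agent.TH407.AR

/-- Fourier inversion in the normalisation without `2 π` in the phase -/
lemma inv_key {f : ℝ → ℂ} (hc : Continuous f) (hi : Integrable f) {P : ℝ → ℝ} (hP : Integrable P)
    (hF : ∀ κ : ℝ, ∫ v : ℝ, cexp (-(I * ((κ * v : ℝ) : ℂ))) * f v = ((2 * π * P κ : ℝ) : ℂ))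
    (x : ℝ) : ∫ κ : ℝ, cexp (I * ((κ * x : ℝ) : ℂ)) * (P κ : ℂ) = f x := by
  have hpi : (0 : ℝ) < 2 * π := by positivity
  have h1 : ∀ w : ℝ, 𝓕 f w = ((2 * π * P (2 * π * w) : ℝ) : ℂ) := by
    intro w
    rw [← hF, Real.fourier_real_eq_integral_exp_smul]
    apply integral_congr_ae
    refine ae_of_all _ fun v => ?_
    simp only [smul_eq_mul]
    congr 2
    push_cast
    ring
  have h2 : Integrable (𝓕 f) := by
    have h3 : (𝓕 f) = fun w : ℝ => ((2 * π * P (2 * π * w) : ℝ) : ℂ) := funext h1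
    rw [h3]
    have h4 : Integrable (fun w : ℝ => P (2 * π * w)) := hP.comp_mul_left' hpi.ne'
    exact (h4.const_mul (2 * π)).ofReal
  have h3 := congrFun (hc.fourierInv_fourier_eq hi h2) x
  rw [← h3, Real.fourierInv_eq']
  have h5 : ∀ w : ℝ, cexp (((2 * π * inner ℝ w x : ℝ) : ℂ) * I) • 𝓕 f w =
      (fun κ : ℝ => ((2 * π : ℝ) : ℂ) * (cexp (I * ((κ * x : ℝ) : ℂ)) * (P κ : ℂ))) (2 * π * w) := by
    intro w
    simp only [smul_eq_mul]
    rw [h1 w]
    have : (inner ℝ w x : ℝ) = w * x := by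
      simp [mul_comm]
    rw [this]
    have e : (((2 * π * (w * x) : ℝ) : ℂ) * I) = I * ((2 * π * w * x : ℝ) : ℂ) := by
      push_cast; ring
    rw [e]
    push_cast
    ring
  rw [integral_congr_ae (ae_of_all _ h5), Measure.integral_comp_mul_left
    (fun κ : ℝ => ((2 * π : ℝ) : ℂ) * (cexp (I * ((κ * x : ℝ) : ℂ)) * (P κ : ℂ))) (2 * π),
    integral_const_mul, abs_of_pos (inv_pos.2 hpi)]
  rw [Complex.real_smul, ← mul_assoc, ← Complex.ofReal_mul, inv_mul_cancel₀ hpi.ne',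
    Complex.ofReal_one, one_mul]

/-- the integral of an even profile -/
lemma split_int {g : ℝ → ℂ} (h1 : IntegrableOn g (Ioi 0))
    (h2 : IntegrableOn (fun v => g (-v)) (Ioi 0)) :
    Integrable g ∧ ∫ v, g v = (∫ v in Ioi 0, g v) + ∫ v in Ioi 0, g (-v) := by
  have h3 : IntegrableOn g (Iio 0) := by
    have h := IntegrableOn.comp_neg_Iio (f := fun v => g (-v)) (c := (0 : ℝ)) (by rwa [neg_zero])
    simp only [neg_neg] at h
    exact h
  have h4 : IntegrableOn g (Iic 0) := by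
    rwa [integrableOn_Iic_iff_integrableOn_Iio]
  have h5 : Integrable g := by
    have := h4.union h1
    rw [Iic_union_Ioi, integrableOn_univ] at this
    exact this
  refine ⟨h5, ?_⟩
  have e1 : (∫ v in Iic 0, g v) + (∫ v in Ioi 0, g v) = ∫ v, g v :=
    intervalIntegral.integral_Iic_add_Ioi h4 h1
  have e2 : ∫ v in Ioi (0 : ℝ), g (-v) = ∫ v in Iic (0 : ℝ), g v := by
    have := integral_comp_neg_Ioi (0 : ℝ) g
    rw [neg_zero] at this
    exact this
  rw [e2, add_comm, e1]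

lemma j1_int {a : ℂ} (ha : a.re = -1) :
    IntegrableOn (fun v : ℝ => (v : ℂ) * cexp (a * v)) (Ioi 0) := by
  have h := Real.GammaIntegral_convergent (s := 2) (by norm_num)
  refine Integrable.mono' h ?_ ?_
  · apply Continuous.aestronglyMeasurable
    fun_prop
  · rw [ae_restrict_iff' measurableSet_Ioi]
    refine ae_of_all _ fun v hv => ?_
    have hv' : (0 : ℝ) < v := hv
    rw [norm_mul, Complex.norm_exp, Complex.norm_real, Real.norm_eq_abs, abs_of_pos hv']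
    have e1 : (a * (v : ℂ)).re = -v := by simp [ha]
    rw [e1, show (2 : ℝ) - 1 = 1 by norm_num, Real.rpow_one, mul_comm]

lemma j1_val {a : ℂ} (ha : a.re = -1) :
    ∫ v in Ioi (0 : ℝ), (v : ℂ) * cexp (a * v) = 1 / a ^ 2 := by
  have ha0 : a ≠ 0 := by
    rintro rfl
    simp at ha
  have hd : ∀ v ∈ Ici (0 : ℝ), HasDerivAt
      (fun v : ℝ => ((v : ℂ) / a - 1 / a ^ 2) * cexp (a * v)) ((v : ℂ) * cexp (a * v)) v := by
    intro v _
    have h1 : HasDerivAt (fun v : ℝ => (v : ℂ)) 1 v := Complex.ofRealCLM.hasDerivAt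
    have h2 : HasDerivAt (fun v : ℝ => (v : ℂ) / a - 1 / a ^ 2) (1 / a) v :=
      (h1.div_const a).sub_const _
    have h3 : HasDerivAt (fun v : ℝ => cexp (a * v)) (cexp (a * v) * (a * 1)) v :=
      (h1.const_mul a).cexp
    have h4 := h2.mul h3
    have e : (v : ℂ) * cexp (a * v) =
        1 / a * cexp (a * v) + ((v : ℂ) / a - 1 / a ^ 2) * (cexp (a * v) * (a * 1)) := by
      field_simp
      ring
    rw [e]
    exact h4
  have hlim : Tendsto (fun v : ℝ => ((v : ℂ) / a - 1 / a ^ 2) * cexp (a * v)) atTop (𝓝 0) := by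
    rw [tendsto_zero_iff_norm_tendsto_zero]
    have h1 := (Real.tendsto_pow_mul_exp_neg_atTop_nhds_zero 1).const_mul ‖a‖⁻¹
    have h2 := (Real.tendsto_pow_mul_exp_neg_atTop_nhds_zero 0).const_mul ‖1 / a ^ 2‖
    have h3 := h1.add h2
    rw [mul_zero, mul_zero, add_zero] at h3
    refine squeeze_zero' (Eventually.of_forall fun _ => norm_nonneg _) ?_ h3
    filter_upwards [eventually_ge_atTop (0 : ℝ)] with v hv
    rw [norm_mul, Complex.norm_exp]
    have e1 : (a * (v : ℂ)).re = -v := by simp [ha]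
    rw [e1]
    have e2 : ‖(v : ℂ) / a - 1 / a ^ 2‖ ≤ v * ‖a‖⁻¹ + ‖1 / a ^ 2‖ := by
      refine (norm_sub_le _ _).trans ?_
      rw [norm_div, Complex.norm_real, Real.norm_eq_abs, abs_of_nonneg hv, div_eq_mul_inv]
    have := mul_le_mul_of_nonneg_right e2 (Real.exp_pos (-v)).le
    refine this.trans (le_of_eq ?_)
    ring
  have h := integral_Ioi_of_hasDerivAt_of_tendsto' hd (j1_int ha) hlim
  rw [h]
  simp

lemma j0_val {a : ℂ} (ha : a.re = -1) : ∫ v in Ioi (0 : ℝ), cexp (a * v) = -1 / a := by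
  have := integral_exp_mul_complex_Ioi (a := a) (by rw [ha]; norm_num) 0
  rw [this]
  simp

theorem poisson : Poisson := by
  have hpi : (0 : ℝ) < π := Real.pi_pos
  have hpi1 : (1 : ℝ) ≤ π := by linarith [Real.pi_gt_three]
  have hone : ∀ κ : ℝ, 0 < 1 + κ ^ 2 := fun κ => by positivity
  have hb1 : ∀ κ : ℝ, |π⁻¹ * (1 + κ ^ 2)⁻¹| ≤ (1 + κ ^ 2)⁻¹ := by
    intro κ
    have h := hone κ
    rw [abs_of_pos (by positivity)]
    have : π⁻¹ ≤ 1 := inv_le_one_of_one_le₀ hpi1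
    exact mul_le_of_le_one_left (by positivity) this
  have hb2 : ∀ κ : ℝ, |π⁻¹ * ((1 - κ ^ 2) / (1 + κ ^ 2) ^ 2)| ≤ (1 + κ ^ 2)⁻¹ := by
    intro κ
    have h := hone κ
    rw [abs_mul, abs_of_pos (inv_pos.2 hpi), abs_div, abs_of_pos (by positivity : 0 < (1 + κ ^ 2) ^ 2)]
    have h1 : π⁻¹ ≤ 1 := inv_le_one_of_one_le₀ hpi1
    have h2 : |1 - κ ^ 2| ≤ 1 + κ ^ 2 := by
      rw [abs_le]; constructor <;> nlinarith [sq_nonneg κ]
    have h3 : |1 - κ ^ 2| / (1 + κ ^ 2) ^ 2 ≤ (1 + κ ^ 2)⁻¹ := by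
      rw [div_le_iff₀ (by positivity)]
      have : (1 + κ ^ 2)⁻¹ * (1 + κ ^ 2) ^ 2 = 1 + κ ^ 2 := by field_simp
      rw [this]; exact h2
    have h4 : 0 ≤ |1 - κ ^ 2| / (1 + κ ^ 2) ^ 2 := by positivity
    calc π⁻¹ * (|1 - κ ^ 2| / (1 + κ ^ 2) ^ 2) ≤ 1 * (|1 - κ ^ 2| / (1 + κ ^ 2) ^ 2) := by gcongr
      _ ≤ _ := by rw [one_mul]; exact h3
  have hcP : Continuous fun κ : ℝ => π⁻¹ * (1 + κ ^ 2)⁻¹ := by
    refine continuous_const.mul (Continuous.inv₀ (by fun_prop) fun κ => (hone κ).ne')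
  have hcQ : Continuous fun κ : ℝ => π⁻¹ * ((1 - κ ^ 2) / (1 + κ ^ 2) ^ 2) := by
    refine continuous_const.mul (Continuous.div (by fun_prop) (by fun_prop) fun κ =>
      (pow_pos (hone κ) 2).ne')
  have hiP : Integrable fun κ : ℝ => π⁻¹ * (1 + κ ^ 2)⁻¹ :=
    Integrable.mono' integrable_inv_one_add_sq hcP.aestronglyMeasurable
      (ae_of_all _ fun κ => hb1 κ)
  have hiQ : Integrable fun κ : ℝ => π⁻¹ * ((1 - κ ^ 2) / (1 + κ ^ 2) ^ 2) :=
    Integrable.mono' integrable_inv_one_add_sq hcQ.aestronglyMeasurable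
      (ae_of_all _ fun κ => hb2 κ)
  refine ⟨fun κ => π⁻¹ * (1 + κ ^ 2)⁻¹, fun κ => π⁻¹ * ((1 - κ ^ 2) / (1 + κ ^ 2) ^ 2), hcP, hcQ,
    hb1, hb2, ?_, ?_⟩
  · intro x hx
    have hre1 : ∀ κ : ℝ, (-1 - I * (κ : ℂ)).re = -1 := by intro κ; simp
    have hre2 : ∀ κ : ℝ, (-1 + I * (κ : ℂ)).re = -1 := by intro κ; simp
    set f : ℝ → ℂ := fun v => ((Real.exp (-|v|) : ℝ) : ℂ) with hf
    have hc : Continuous f := by
      simp only [hf]; fun_prop
    have hpos : ∀ κ : ℝ, ∀ v ∈ Ioi (0 : ℝ), cexp (-(I * ((κ * v : ℝ) : ℂ))) * f v =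
        cexp ((-1 - I * (κ : ℂ)) * v) := by
      intro κ v hv
      simp only [hf]
      rw [abs_of_pos hv, Complex.ofReal_exp, ← Complex.exp_add]
      congr 1
      push_cast
      ring
    have hneg : ∀ κ : ℝ, ∀ v ∈ Ioi (0 : ℝ), cexp (-(I * ((κ * (-v) : ℝ) : ℂ))) * f (-v) =
        cexp ((-1 + I * (κ : ℂ)) * v) := by
      intro κ v hv
      simp only [hf]
      rw [abs_neg, abs_of_pos hv, Complex.ofReal_exp, ← Complex.exp_add]
      congr 1
      push_cast
      ring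
    have hint : ∀ κ : ℝ, Integrable (fun v : ℝ => cexp (-(I * ((κ * v : ℝ) : ℂ))) * f v) ∧
        ∫ v : ℝ, cexp (-(I * ((κ * v : ℝ) : ℂ))) * f v =
          -1 / (-1 - I * (κ : ℂ)) + -1 / (-1 + I * (κ : ℂ)) := by
      intro κ
      have h1 : IntegrableOn (fun v : ℝ => cexp (-(I * ((κ * v : ℝ) : ℂ))) * f v) (Ioi 0) :=
        (integrableOn_exp_mul_complex_Ioi (by rw [hre1 κ]; norm_num) 0).congr_fun
          (fun v hv => (hpos κ v hv).symm) measurableSet_Ioi
      have h2 : IntegrableOn (fun v : ℝ => cexp (-(I * ((κ * (-v) : ℝ) : ℂ))) * f (-v)) (Ioi 0) :=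
        (integrableOn_exp_mul_complex_Ioi (by rw [hre2 κ]; norm_num) 0).congr_fun
          (fun v hv => (hneg κ v hv).symm) measurableSet_Ioi
      obtain ⟨h3, h4⟩ := split_int h1 h2
      refine ⟨h3, ?_⟩
      rw [h4, setIntegral_congr_fun measurableSet_Ioi (hpos κ),
        setIntegral_congr_fun measurableSet_Ioi (hneg κ), j0_val (hre1 κ), j0_val (hre2 κ)]
    have hfi : Integrable f := by
      have := (hint 0).1
      simpa using this
    have := inv_key hc hfi hiP (fun κ => ?_) x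
    · rw [this]
      simp only [hf, abs_of_nonneg hx]
    · rw [(hint κ).2]
      have n1 : (-1 - I * (κ : ℂ)) ≠ 0 := by
        intro h; have := hre1 κ; rw [h] at this; simp at this
      have n2 : (-1 + I * (κ : ℂ)) ≠ 0 := by
        intro h; have := hre2 κ; rw [h] at this; simp at this
      have n3 : (1 + (κ : ℂ) ^ 2) ≠ 0 := by exact_mod_cast (hone κ).ne'
      have n4 : (π : ℂ) ≠ 0 := by exact_mod_cast hpi.ne'
      push_cast
      field_simp
      linear_combination (2 * (κ : ℂ) ^ 2) * I_sq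
  · intro x hx
    have hre1 : ∀ κ : ℝ, (-1 - I * (κ : ℂ)).re = -1 := by intro κ; simp
    have hre2 : ∀ κ : ℝ, (-1 + I * (κ : ℂ)).re = -1 := by intro κ; simp
    set f : ℝ → ℂ := fun v => ((|v| * Real.exp (-|v|) : ℝ) : ℂ) with hf
    have hc : Continuous f := by
      simp only [hf]; fun_prop
    have hpos : ∀ κ : ℝ, ∀ v ∈ Ioi (0 : ℝ), cexp (-(I * ((κ * v : ℝ) : ℂ))) * f v =
        (v : ℂ) * cexp ((-1 - I * (κ : ℂ)) * v) := by
      intro κ v hv
      simp only [hf]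
      have e0 : ((v * Real.exp (-v) : ℝ) : ℂ) = (v : ℂ) * cexp (-v) := by push_cast; rfl
      rw [abs_of_pos hv, e0, mul_left_comm, ← Complex.exp_add]
      congr 2
      push_cast
      ring
    have hneg : ∀ κ : ℝ, ∀ v ∈ Ioi (0 : ℝ), cexp (-(I * ((κ * (-v) : ℝ) : ℂ))) * f (-v) =
        (v : ℂ) * cexp ((-1 + I * (κ : ℂ)) * v) := by
      intro κ v hv
      simp only [hf]
      have e0 : ((v * Real.exp (-v) : ℝ) : ℂ) = (v : ℂ) * cexp (-v) := by push_cast; rfl
      rw [abs_neg, abs_of_pos hv, e0, mul_left_comm, ← Complex.exp_add]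
      congr 2
      push_cast
      ring
    have hint : ∀ κ : ℝ, Integrable (fun v : ℝ => cexp (-(I * ((κ * v : ℝ) : ℂ))) * f v) ∧
        ∫ v : ℝ, cexp (-(I * ((κ * v : ℝ) : ℂ))) * f v =
          1 / (-1 - I * (κ : ℂ)) ^ 2 + 1 / (-1 + I * (κ : ℂ)) ^ 2 := by
      intro κ
      have h1 : IntegrableOn (fun v : ℝ => cexp (-(I * ((κ * v : ℝ) : ℂ))) * f v) (Ioi 0) :=
        (j1_int (hre1 κ)).congr_fun (fun v hv => (hpos κ v hv).symm) measurableSet_Ioi
      have h2 : IntegrableOn (fun v : ℝ => cexp (-(I * ((κ * (-v) : ℝ) : ℂ))) * f (-v)) (Ioi 0) :=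
        (j1_int (hre2 κ)).congr_fun (fun v hv => (hneg κ v hv).symm) measurableSet_Ioi
      obtain ⟨h3, h4⟩ := split_int h1 h2
      refine ⟨h3, ?_⟩
      rw [h4, setIntegral_congr_fun measurableSet_Ioi (hpos κ),
        setIntegral_congr_fun measurableSet_Ioi (hneg κ), j1_val (hre1 κ), j1_val (hre2 κ)]
    have hfi : Integrable f := by
      have := (hint 0).1
      simpa using this
    have := inv_key hc hfi hiQ (fun κ => ?_) x
    · rw [this]
      simp only [hf, abs_of_nonneg hx]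
    · rw [(hint κ).2]
      have n1 : (-1 - I * (κ : ℂ)) ≠ 0 := by
        intro h; have := hre1 κ; rw [h] at this; simp at this
      have n2 : (-1 + I * (κ : ℂ)) ≠ 0 := by
        intro h; have := hre2 κ; rw [h] at this; simp at this
      have n3 : (1 + (κ : ℂ) ^ 2) ≠ 0 := by exact_mod_cast (hone κ).ne'
      have n4 : (π : ℂ) ≠ 0 := by exact_mod_cast hpi.ne'
      have e1 : (-1 - I * (κ : ℂ)) ^ 2 * (-1 + I * (κ : ℂ)) ^ 2 = (1 + (κ : ℂ) ^ 2) ^ 2 := by
        have : (-1 - I * (κ : ℂ)) * (-1 + I * (κ : ℂ)) = 1 + (κ : ℂ) ^ 2 := by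
          linear_combination (-(κ : ℂ) ^ 2) * I_sq
        rw [← mul_pow, this]
      rw [div_add_div _ _ (pow_ne_zero 2 n1) (pow_ne_zero 2 n2), e1]
      push_cast
      field_simp
      linear_combination (2 * (κ : ℂ) ^ 2) * I_sq

end Pool.Agent.TH817.VR
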